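import Pool.Agent.N220.CF.L

/-!
# Sparse families of integral vectors and the convergents of almost every number (helper16)
-/

set_option autoImplicit false

namespace Pool.Agent.L7h16.SV

open Finset MeasureTheory Filter
open Pool.Agent.N220.CF (Near Cone ae_near sum_shells convergent_approx)

/-- the exceptional vectors `(q, p)`, at their own scale `X`, `X ^ e ≤ q < (X + 1) ^ e` -/
def Exc (n e : ℕ) (Bad : ℕ → (Fin (n + 1) → ℤ) → Prop) : Set ((Fin n → ℤ) × ℕ) :=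
  {t | ∃ X : ℕ, 1 ≤ X ∧ X ^ e ≤ t.2 ∧ t.2 < (X + 1) ^ e ∧ Bad X (Fin.cons (t.2 : ℤ) t.1)}

/-- **Theorem.** Let the sets `Bad X` have at most `X ^ (e (n + 1)) / (log X) ^ 2` members in the boxes of size `B X ^ e`, even
if the scale varies by a factor two. Then for almost all `α` in `R ^ n` and all `c`, only finitely many `(p, q)` with
`|q α_j - p_j| ≤ c q ^ (-1/n)` are exceptional at their own scale. -/
theorem ae_vectors {n e : ℕ} (hn : 1 ≤ n) (he : 1 ≤ e) (Bad : ℕ → (Fin (n + 1) → ℤ) → Prop)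
    (h : ∀ B₁ : ℕ, ∃ X₀ : ℕ, ∀ X : ℕ, X₀ ≤ X → ({k : Fin (n + 1) → ℤ | (∀ j, |k j| ≤ ((B₁ * X ^ e : ℕ) : ℤ)) ∧
      ∃ X' : ℕ, X ≤ X' ∧ X' < 2 * X ∧ Bad X' k}.ncard : ℝ) ≤ (X : ℝ) ^ (e * (n + 1)) / Real.log X ^ 2) :
    ∀ᵐ α : Fin n → ℝ, ∀ c : ℝ, {t | t ∈ Exc n e Bad ∧ Near c (1 / n) α t}.Finite := by
  classical
  refine ae_near (Exc n e Bad) hn (A := 2) (by norm_num) fun M => ?_
  obtain ⟨D, hD⟩ : ∃ D, D = e * (n + 1) := ⟨_, rfl⟩
  have hD1 : 1 ≤ D := by rw [hD]; exact Nat.mul_pos he (by omega)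
  obtain ⟨B₁, hB₁⟩ : ∃ B₁, B₁ = (M + 1) * 2 ^ e := ⟨_, rfl⟩
  obtain ⟨X₀, hX₀⟩ := h B₁
  obtain ⟨S, hS⟩ : ∃ S : ℕ → Set (Fin (n + 1) → ℤ), S = fun m => {k : Fin (n + 1) → ℤ |
    (∀ j, |k j| ≤ ((B₁ * (2 ^ m) ^ e : ℕ) : ℤ)) ∧ ∃ X' : ℕ, 2 ^ m ≤ X' ∧ X' < 2 * 2 ^ m ∧ Bad X' k} := ⟨_, rfl⟩
  have hSf : ∀ m, (S m).Finite := by
    intro m
    rw [hS]
    refine (Finset.finite_toSet (Fintype.piFinset fun _ : Fin (n + 1) =>
      Icc (-((B₁ * (2 ^ m) ^ e : ℕ) : ℤ)) ((B₁ * (2 ^ m) ^ e : ℕ) : ℤ))).subset ?_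
    rintro k ⟨hk, -⟩
    rw [Finset.mem_coe, Fintype.mem_piFinset]
    exact fun j => mem_Icc.2 (abs_le.1 (hk j))
  have hl2 : 0 < Real.log 2 := Real.log_pos (by norm_num)
  -- a uniform constant
  obtain ⟨K, hK0, hK⟩ : ∃ K : ℝ, 0 ≤ K ∧ ∀ m : ℕ, ((S m).ncard : ℝ) ≤ K * ((2 : ℝ) ^ (m * D) / ((m : ℝ) + 1) ^ 2) := by
    refine ⟨4 / Real.log 2 ^ 2 + ∑ m ∈ range (X₀ + 1), ((S m).ncard : ℝ) * ((m : ℝ) + 1) ^ 2, by positivity, fun m => ?_⟩
    have hp : (0 : ℝ) ≤ 2 ^ (m * D) / ((m : ℝ) + 1) ^ 2 := by positivity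
    rcases le_or_gt (X₀ + 1) m with h1 | h1
    · have h2 : X₀ ≤ 2 ^ m := by
        have := Nat.lt_two_pow_self (n := m)
        omega
      have h3 := hX₀ (2 ^ m) h2
      have h4 : ((2 ^ m : ℕ) : ℝ) ^ (e * (n + 1)) / Real.log ((2 ^ m : ℕ) : ℝ) ^ 2 ≤
          4 / Real.log 2 ^ 2 * ((2 : ℝ) ^ (m * D) / ((m : ℝ) + 1) ^ 2) := by
        push_cast
        rw [← pow_mul, ← hD, Real.log_pow, mul_pow, div_mul_div_comm]
        have hm1 : (1 : ℝ) ≤ m := by exact_mod_cast (by omega : 1 ≤ m)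
        rw [div_le_div_iff₀ (by positivity) (by positivity)]
        have h5 : ((m : ℝ) + 1) ^ 2 ≤ 4 * (m : ℝ) ^ 2 := by nlinarith
        calc (2 : ℝ) ^ (m * D) * (Real.log 2 ^ 2 * ((m : ℝ) + 1) ^ 2)
            ≤ (2 : ℝ) ^ (m * D) * (Real.log 2 ^ 2 * (4 * (m : ℝ) ^ 2)) := by gcongr
          _ = _ := by ring
      have h5 : ((S m).ncard : ℝ) ≤ ((2 ^ m : ℕ) : ℝ) ^ (e * (n + 1)) / Real.log ((2 ^ m : ℕ) : ℝ) ^ 2 := by
        rw [hS]; exact h3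
      have h6 : 0 ≤ (∑ m ∈ range (X₀ + 1), ((S m).ncard : ℝ) * ((m : ℝ) + 1) ^ 2) *
          ((2 : ℝ) ^ (m * D) / ((m : ℝ) + 1) ^ 2) := by positivity
      rw [add_mul]
      linarith
    · have h2 : ((S m).ncard : ℝ) * ((m : ℝ) + 1) ^ 2 ≤ ∑ m ∈ range (X₀ + 1), ((S m).ncard : ℝ) * ((m : ℝ) + 1) ^ 2 :=
        Finset.single_le_sum (f := fun m => ((S m).ncard : ℝ) * ((m : ℝ) + 1) ^ 2) (fun _ _ => by positivity)
          (mem_range.2 h1)
      have h3 : (1 : ℝ) ≤ (2 : ℝ) ^ (m * D) := one_le_pow₀ (by norm_num)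
      have h4 : ((S m).ncard : ℝ) = ((S m).ncard : ℝ) * ((m : ℝ) + 1) ^ 2 * (1 / ((m : ℝ) + 1) ^ 2) := by
        field_simp
      have h5 : 0 ≤ 4 / Real.log 2 ^ 2 * ((2 : ℝ) ^ (m * D) / ((m : ℝ) + 1) ^ 2) := by positivity
      have h6 : ((S m).ncard : ℝ) * ((m : ℝ) + 1) ^ 2 * (1 / ((m : ℝ) + 1) ^ 2) ≤
          (∑ m ∈ range (X₀ + 1), ((S m).ncard : ℝ) * ((m : ℝ) + 1) ^ 2) * ((2 : ℝ) ^ (m * D) / ((m : ℝ) + 1) ^ 2) := by
        gcongr
      rw [add_mul]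
      linarith
  obtain ⟨C, hC0, hC⟩ := sum_shells 2
  refine ⟨K * C * (2 * (e : ℝ) * Real.log 2) ^ 2, fun X hX => ?_⟩
  have hX0 : 0 < X := by linarith
  -- the last scale
  have hex : ∃ J : ℕ, ((2 : ℝ) ^ (J * e) ≤ X) ∧ X < (2 : ℝ) ^ ((J + 1) * e) := by
    have h1 : ∃ J : ℕ, X < (2 : ℝ) ^ ((J + 1) * e) := by
      obtain ⟨J, hJ⟩ := pow_unbounded_of_one_lt X (one_lt_two : (1 : ℝ) < 2)
      refine ⟨J, hJ.trans_le (pow_le_pow_right₀ (by norm_num) ?_)⟩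
      nlinarith
    have h2 := Nat.find_spec h1
    refine ⟨Nat.find h1, ?_, h2⟩
    rcases Nat.eq_zero_or_pos (Nat.find h1) with h3 | h3
    · rw [h3, zero_mul, pow_zero]
      linarith
    · have h4 := Nat.find_min h1 (m := Nat.find h1 - 1) (by omega)
      rw [Nat.sub_add_cancel h3] at h4
      exact not_lt.1 h4
  obtain ⟨J, hJ1, hJ2⟩ := hex
  obtain ⟨φ, hφ⟩ : ∃ φ : (Fin n → ℤ) × ℕ → (Fin (n + 1) → ℤ), φ = fun t => Fin.cons (t.2 : ℤ) t.1 := ⟨_, rfl⟩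
  have hinj : Function.Injective φ := by
    rintro ⟨p, q⟩ ⟨p', q'⟩ h1
    rw [hφ] at h1
    have h2 := Fin.cons_inj.1 h1
    rw [Prod.mk.injEq]
    exact ⟨h2.2, by exact_mod_cast h2.1⟩
  have hsub : φ '' {t : (Fin n → ℤ) × ℕ | t ∈ Cone (Exc n e Bad) M ∧ (t.2 : ℝ) ≤ X} ⊆
      ⋃ m ∈ range (J + 1), S m := by
    rintro _ ⟨⟨p, q⟩, ⟨⟨⟨Y, hY1, hY2, hY3, hY4⟩, hq1, hp⟩, hqX⟩, rfl⟩
    simp only at hY2 hY3 hY4 hq1 hp hqX
    have hm1 : 2 ^ Nat.log 2 Y ≤ Y := Nat.pow_log_le_self 2 (by omega)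
    have hm2 : Y < 2 ^ (Nat.log 2 Y + 1) := Nat.lt_pow_succ_log_self (by norm_num) Y
    refine Set.mem_iUnion₂.2 ⟨Nat.log 2 Y, ?_, ?_⟩
    · rw [Finset.mem_range]
      by_contra hcon
      have h1 : (J + 1) * e ≤ Nat.log 2 Y * e := Nat.mul_le_mul_right e (by omega)
      have h2 : 2 ^ (Nat.log 2 Y * e) ≤ q := by
        rw [pow_mul]
        exact (Nat.pow_le_pow_left hm1 e).trans hY2
      have h3 : (2 : ℝ) ^ ((J + 1) * e) ≤ (2 : ℝ) ^ (Nat.log 2 Y * e) := pow_le_pow_right₀ (by norm_num) h1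
      have h4 : (2 : ℝ) ^ (Nat.log 2 Y * e) ≤ q := by exact_mod_cast h2
      linarith
    · rw [hS]
      have hqb : q ≤ 2 ^ e * (2 ^ Nat.log 2 Y) ^ e := by
        rw [← mul_pow, ← pow_succ']
        exact hY3.le.trans (Nat.pow_le_pow_left (by omega) e)
      have hMq : (M + 1) * q ≤ B₁ * (2 ^ Nat.log 2 Y) ^ e := by
        rw [hB₁, mul_assoc]
        exact Nat.mul_le_mul_left _ hqb
      refine ⟨fun j => ?_, Y, hm1, by rw [← pow_succ']; exact hm2, ?_⟩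
      · refine le_trans ?_ (Int.ofNat_le.2 hMq)
        rw [hφ]
        refine Fin.cases ?_ (fun i => ?_) j
        · simp only [Fin.cons_zero, Nat.abs_cast]
          push_cast
          nlinarith [Nat.cast_nonneg (α := ℤ) q, Nat.cast_nonneg (α := ℤ) M]
        · simp only [Fin.cons_succ]
          have := hp i
          push_cast
          nlinarith [Nat.cast_nonneg (α := ℤ) q]
      · rw [hφ]
        exact hY4
  have hfU : (⋃ m ∈ range (J + 1), S m).Finite := Set.Finite.biUnion (Finset.finite_toSet _) fun m _ => hSf m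
  have himg := hfU.subset hsub
  have hfin : {t : (Fin n → ℤ) × ℕ | t ∈ Cone (Exc n e Bad) M ∧ (t.2 : ℝ) ≤ X}.Finite :=
    Set.Finite.of_finite_image himg hinj.injOn
  refine ⟨hfin, ?_⟩
  have hcard1 : ({t : (Fin n → ℤ) × ℕ | t ∈ Cone (Exc n e Bad) M ∧ (t.2 : ℝ) ≤ X}.ncard : ℝ) ≤
      ∑ m ∈ range (J + 1), ((S m).ncard : ℝ) := by
    rw [← Set.ncard_image_of_injective _ hinj]
    have h1 := Set.ncard_le_ncard hsub hfU
    have h2 : (⋃ m ∈ range (J + 1), S m) = (((range (J + 1)).biUnion fun m => (hSf m).toFinset : Finset (Fin (n + 1) → ℤ)) :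
        Set (Fin (n + 1) → ℤ)) := by
      ext k
      simp
    rw [h2, Set.ncard_coe_finset] at h1
    have h3 := h1.trans card_biUnion_le
    have h4 : ∀ m, #(hSf m).toFinset = (S m).ncard := fun m => (Set.ncard_eq_toFinset_card _ (hSf m)).symm
    simp only [h4] at h3
    exact_mod_cast h3
  have hsum : ∑ m ∈ range (J + 1), ((S m).ncard : ℝ) ≤ K * (C * ((2 : ℝ) ^ (J * D) / ((J : ℝ) + 1) ^ 2)) := by
    calc ∑ m ∈ range (J + 1), ((S m).ncard : ℝ)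
        ≤ ∑ m ∈ range (J + 1), K * ((2 : ℝ) ^ (J * (D - 1)) * ((2 : ℝ) ^ m / ((m : ℝ) + 1) ^ 2)) := by
          refine Finset.sum_le_sum fun m hm => (hK m).trans ?_
          rw [mem_range] at hm
          have h1 : (2 : ℝ) ^ (m * D) ≤ (2 : ℝ) ^ (J * (D - 1)) * 2 ^ m := by
            rw [← pow_add]
            refine pow_le_pow_right₀ (by norm_num) ?_
            obtain ⟨D', rfl⟩ : ∃ D', D = D' + 1 := ⟨D - 1, by omega⟩
            rw [Nat.add_sub_cancel]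
            nlinarith [Nat.mul_le_mul_right D' (by omega : m ≤ J)]
          have h2 : (2 : ℝ) ^ (m * D) / ((m : ℝ) + 1) ^ 2 ≤ (2 : ℝ) ^ (J * (D - 1)) * ((2 : ℝ) ^ m / ((m : ℝ) + 1) ^ 2) := by
            rw [← mul_div_assoc]
            exact div_le_div_of_nonneg_right h1 (by positivity)
          exact mul_le_mul_of_nonneg_left h2 hK0
      _ = K * ((2 : ℝ) ^ (J * (D - 1)) * ∑ m ∈ range (J + 1), ((2 : ℝ) ^ m / ((m : ℝ) + 1) ^ 2)) := by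
          rw [Finset.mul_sum, Finset.mul_sum]
      _ ≤ K * ((2 : ℝ) ^ (J * (D - 1)) * (C * (2 ^ J / ((J : ℝ) + 1) ^ 2))) := by
          gcongr
          exact hC J
      _ = K * (C * ((2 : ℝ) ^ (J * D) / ((J : ℝ) + 1) ^ 2)) := by
          have h1 : (2 : ℝ) ^ (J * D) = (2 : ℝ) ^ (J * (D - 1)) * 2 ^ J := by
            rw [← pow_add]
            congr 1
            obtain ⟨D', rfl⟩ : ∃ D', D = D' + 1 := ⟨D - 1, by omega⟩
            rw [Nat.add_sub_cancel]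
            ring
          rw [h1]
          ring
  have hXD : (2 : ℝ) ^ (J * D) ≤ X ^ ((n : ℝ) + 1) := by
    have h1 : X ^ ((n : ℝ) + 1) = X ^ (n + 1) := by
      rw [← Real.rpow_natCast]
      push_cast
      rfl
    rw [h1, hD, ← mul_assoc, pow_mul]
    gcongr
  have hlogJ : Real.log X ≤ 2 * (e : ℝ) * Real.log 2 * ((J : ℝ) + 1) := by
    have h1 : Real.log X ≤ Real.log ((2 : ℝ) ^ ((J + 1) * e)) := Real.log_le_log hX0 hJ2.le
    rw [Real.log_pow] at h1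
    push_cast at h1
    have h2 : 0 ≤ ((J : ℝ) + 1) * e * Real.log 2 := by positivity
    linarith
  have hlX : 0 < Real.log X := Real.log_pos (by linarith)
  refine hcard1.trans (hsum.trans ?_)
  have h5 : 1 / ((J : ℝ) + 1) ^ 2 ≤ (2 * (e : ℝ) * Real.log 2) ^ 2 / Real.log X ^ (2 : ℝ) := by
    rw [Real.rpow_two, div_le_div_iff₀ (by positivity) (by positivity), one_mul, ← mul_pow]
    gcongr
  calc K * (C * ((2 : ℝ) ^ (J * D) / ((J : ℝ) + 1) ^ 2))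
      = K * C * (2 : ℝ) ^ (J * D) * (1 / ((J : ℝ) + 1) ^ 2) := by ring
    _ ≤ K * C * X ^ ((n : ℝ) + 1) * ((2 * (e : ℝ) * Real.log 2) ^ 2 / Real.log X ^ (2 : ℝ)) := by gcongr
    _ = _ := by ring

open GenContFract in
lemma conv_near {ξ : ℝ} (hξ : Irrational ξ) (n : ℕ) :
    |((ξ.convergent n).den : ℝ) * ξ - ((ξ.convergent n).num : ℝ)| ≤ 1 * ((ξ.convergent n).den : ℝ) ^ (-1 : ℝ) := by
  have hq1 : 1 ≤ (ξ.convergent n).den := (ξ.convergent n).den_pos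
  have hq : (1 : ℝ) ≤ ((ξ.convergent n).den : ℝ) := by exact_mod_cast hq1
  have hq0 : (0 : ℝ) < ((ξ.convergent n).den : ℝ) := by linarith
  have h1 := abs_sub_convs_le (v := ξ) (Pool.Agent.N220.CF.not_term hξ n)
  rw [Real.convs_eq_convergent, ← Pool.Agent.N220.CF.convergent_data hξ n] at h1
  have h2 : ((ξ.convergent n).den : ℝ) ≤ (GenContFract.of ξ).dens (n + 1) := by
    rw [Pool.Agent.N220.CF.convergent_data hξ n]
    exact of_den_mono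
  have h3 : ((ξ.convergent n : ℚ) : ℝ) = ((ξ.convergent n).num : ℝ) / ((ξ.convergent n).den : ℝ) := by
    exact_mod_cast (Rat.num_div_den (ξ.convergent n)).symm
  have h4 : ((ξ.convergent n).den : ℝ) * ξ - ((ξ.convergent n).num : ℝ) =
      ((ξ.convergent n).den : ℝ) * (ξ - ((ξ.convergent n : ℚ) : ℝ)) := by
    rw [h3]
    field_simp
  rw [h4, abs_mul, abs_of_pos hq0, one_mul, Real.rpow_neg_one]
  calc ((ξ.convergent n).den : ℝ) * |ξ - ((ξ.convergent n : ℚ) : ℝ)|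
      ≤ ((ξ.convergent n).den : ℝ) * (1 / (((ξ.convergent n).den : ℝ) * (GenContFract.of ξ).dens (n + 1))) :=
        mul_le_mul_of_nonneg_left h1 hq0.le
    _ = ((GenContFract.of ξ).dens (n + 1))⁻¹ := by
        field_simp
    _ ≤ (((ξ.convergent n).den : ℝ))⁻¹ := inv_anti₀ hq0 h2

/-- the same for the convergents of almost every number -/
theorem ae_convergents {e : ℕ} (he : 1 ≤ e) (Bad : ℕ → (Fin 2 → ℤ) → Prop)
    (h : ∀ B₁ : ℕ, ∃ X₀ : ℕ, ∀ X : ℕ, X₀ ≤ X → ({k : Fin 2 → ℤ | (∀ j, |k j| ≤ ((B₁ * X ^ e : ℕ) : ℤ)) ∧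
      ∃ X' : ℕ, X ≤ X' ∧ X' < 2 * X ∧ Bad X' k}.ncard : ℝ) ≤ (X : ℝ) ^ (e * 2) / Real.log X ^ 2) :
    ∀ᵐ ξ : ℝ, ∀ᶠ N : ℕ in atTop, ∀ X : ℕ, 1 ≤ X → X ^ e ≤ (ξ.convergent N).den → (ξ.convergent N).den < (X + 1) ^ e →
      ¬ Bad X ![((ξ.convergent N).den : ℤ), (ξ.convergent N).num] := by
  have h0 := ae_vectors (n := 1) (e := e) le_rfl he Bad h
  have h1 := (volume_preserving_funUnique (Fin 1) ℝ).symm.quasiMeasurePreserving.ae h0
  have h2 : ∀ᵐ ξ : ℝ, ξ ∉ Set.range ((↑) : ℚ → ℝ) := (Set.countable_range ((↑) : ℚ → ℝ)).ae_notMem volume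
  filter_upwards [h1, h2] with ξ hξ hirr
  have h3 := hξ 1
  obtain ⟨-, h5⟩ := convergent_approx (ξ := ξ) hirr
  have h6 : Tendsto (fun N : ℕ => (((fun _ => (ξ.convergent N).num, (ξ.convergent N).den)) : (Fin 1 → ℤ) × ℕ)) atTop cofinite := by
    intro S hS
    rw [mem_cofinite] at hS
    have h8 : (Prod.snd '' Sᶜ).Finite := hS.image _
    have h9 : ∀ᶠ q : ℕ in atTop, q ∉ Prod.snd '' Sᶜ := by
      rw [← Nat.cofinite_eq_atTop]
      exact h8.compl_mem_cofinite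
    have h10 := h5.eventually h9
    rw [Filter.mem_map]
    filter_upwards [h10] with N hN
    rw [Set.mem_preimage]
    by_contra hcon
    exact hN ⟨_, hcon, rfl⟩
  have h7 := h6.eventually h3.compl_mem_cofinite
  filter_upwards [h7] with N hN X hX1 hX2 hX3 hbad
  refine hN ⟨⟨X, hX1, hX2, hX3, ?_⟩, ?_, ?_⟩
  · convert hbad using 1
    ext j
    fin_cases j <;> rfl
  · exact (ξ.convergent N).den_pos
  · intro i
    rw [Nat.cast_one, div_one]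
    exact conv_near hirr N

end Pool.Agent.L7h16.SV
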