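import Pool.Agent.L7h16.SV.Prob

/-!
# Events with a logarithmic saving (helper16)
-/

set_option autoImplicit false

namespace Pool.Agent.L7h16.SV

open Finset MeasureTheory Filter
open scoped ENNReal Topology

lemma log_ge {j n : ℕ} (hn : 2 ^ (j / 2) ≤ n) (hn2 : 2 ≤ n) : ((j : ℝ) + 1) * (Real.log 2 / 4) ≤ Real.log n := by
  have hl2 : 0 < Real.log 2 := Real.log_pos (by norm_num)
  have h1 : ((j / 2 : ℕ) : ℝ) * Real.log 2 ≤ Real.log n := by
    rw [← Real.log_pow]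
    exact Real.log_le_log (by positivity) (by exact_mod_cast hn)
  have h2 : Real.log 2 ≤ Real.log n := Real.log_le_log (by norm_num) (by exact_mod_cast hn2)
  have h3 : (j : ℝ) + 1 ≤ 2 * ((j / 2 : ℕ) : ℝ) + 2 := by
    have : j + 1 ≤ 2 * (j / 2) + 2 := by omega
    exact_mod_cast this
  nlinarith

/-- **Density.** Events `E_n` with `μ (E_n) ≤ K / (log n) ^ V` for all `V`: almost surely all but `M / (log M) ^ U` of the first
`M` events do not occur. -/
theorem ae_density {Ω : Type} [MeasurableSpace Ω] (μ : Measure Ω) [IsFiniteMeasure μ] (E : ℕ → Set Ω)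
    (hE : ∀ n, MeasurableSet (E n))
    (h : ∀ V : ℕ, ∃ (K : ℝ) (n₀ : ℕ), 0 ≤ K ∧ 2 ≤ n₀ ∧ ∀ n : ℕ, n₀ ≤ n → μ (E n) ≤ ENNReal.ofReal (K / Real.log n ^ V)) :
    ∀ᵐ ω ∂μ, ∀ U : ℕ, ∀ᶠ M : ℕ in atTop, ({n : ℕ | n < M ∧ ω ∈ E n}.ncard : ℝ) ≤ M / Real.log M ^ U := by
  classical
  rw [ae_all_iff]
  intro U
  obtain ⟨K, n₀, hK0, hn₀, hK⟩ := h (U + 2)
  set S : ℕ → Ω → ℝ≥0∞ := fun j ω => ∑ n ∈ range (2 ^ j), Set.indicator (E n) (fun _ => (1 : ℝ≥0∞)) ω with hS
  obtain ⟨m, hm⟩ : ∃ m : ℝ, m = (μ Set.univ).toReal := ⟨_, rfl⟩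
  have hm0 : 0 ≤ m := by rw [hm]; exact ENNReal.toReal_nonneg
  have hmE : ∀ n, μ (E n) ≤ ENNReal.ofReal m := by
    intro n
    rw [hm, ENNReal.ofReal_toReal (measure_ne_top _ _)]
    exact measure_mono (Set.subset_univ _)
  have hl2 : 0 < Real.log 2 := Real.log_pos (by norm_num)
  obtain ⟨K', hK'⟩ : ∃ K' : ℝ, K' = K * (4 / Real.log 2) ^ (U + 2) := ⟨_, rfl⟩
  have hK'0 : 0 ≤ K' := by rw [hK']; positivity
  -- the expectation
  have hint : ∀ j : ℕ, ∫⁻ ω, S j ω ∂μ ≤ ENNReal.ofReal (m * (n₀ + 2 ^ (j / 2)) + 2 ^ j * (K' / ((j : ℝ) + 1) ^ (U + 2))) := by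
    intro j
    rw [hS]
    simp only
    rw [lintegral_finsetSum _ (fun n _ => measurable_const.indicator (hE n))]
    have h1 : ∀ n ∈ range (2 ^ j), ∫⁻ ω, Set.indicator (E n) (fun _ => (1 : ℝ≥0∞)) ω ∂μ ≤
        ENNReal.ofReal ((if n < n₀ + 2 ^ (j / 2) then m else 0) + K' / ((j : ℝ) + 1) ^ (U + 2)) := by
      intro n _
      rw [lintegral_indicator_const (hE n), one_mul]
      split_ifs with hn
      · refine (hmE n).trans (ENNReal.ofReal_le_ofReal ?_)
        have : 0 ≤ K' / ((j : ℝ) + 1) ^ (U + 2) := by positivity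
        linarith
      · have hp : 0 < 2 ^ (j / 2) := by positivity
        have hn1 : n₀ ≤ n := by omega
        have hn2 : 2 ^ (j / 2) ≤ n := by omega
        refine (hK n hn1).trans (ENNReal.ofReal_le_ofReal ?_)
        rw [zero_add]
        have h2 := log_ge (j := j) (n := n) hn2 (by omega)
        have h3 : K' / ((j : ℝ) + 1) ^ (U + 2) = K / (((j : ℝ) + 1) * (Real.log 2 / 4)) ^ (U + 2) := by
          rw [hK', mul_pow, div_pow, div_pow]
          field_simp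
        rw [h3]
        gcongr
    refine (Finset.sum_le_sum h1).trans ?_
    rw [← ENNReal.ofReal_sum_of_nonneg (fun n _ => by positivity)]
    refine ENNReal.ofReal_le_ofReal ?_
    rw [Finset.sum_add_distrib, Finset.sum_const, card_range, nsmul_eq_mul, ← Finset.sum_filter, Finset.sum_const,
      nsmul_eq_mul]
    have h4 : (#{n ∈ range (2 ^ j) | n < n₀ + 2 ^ (j / 2)} : ℝ) ≤ n₀ + 2 ^ (j / 2) := by
      have h5 : #{n ∈ range (2 ^ j) | n < n₀ + 2 ^ (j / 2)} ≤ #(range (n₀ + 2 ^ (j / 2))) := by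
        refine card_le_card ?_
        intro n hn
        rw [mem_filter] at hn
        exact mem_range.2 hn.2
      rw [card_range] at h5
      exact_mod_cast h5
    push_cast
    nlinarith
  set t : ℕ → ℝ := fun j => (2 : ℝ) ^ j / (2 * ((j : ℝ) + 1) ^ U) with ht
  have htpos : ∀ j, 0 < t j := fun j => by simp only [ht]; positivity
  obtain ⟨ρ, hρ⟩ : ∃ ρ : ℝ, ρ = √2 / 2 := ⟨_, rfl⟩
  have hρ0 : 0 < ρ := by rw [hρ]; positivity
  have hρ1 : ρ < 1 := by
    rw [hρ]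
    have : √2 < 2 := by
      rw [Real.sqrt_lt' (by norm_num)]; norm_num
    linarith
  have hhalf : ∀ j : ℕ, (2 : ℝ) ^ (j / 2) ≤ 2 ^ j * ρ ^ j := by
    intro j
    rw [hρ, ← mul_pow, mul_div_cancel₀ _ (two_ne_zero)]
    have h1 : (2 : ℝ) ^ (j / 2) = √2 ^ (2 * (j / 2)) := by
      rw [pow_mul, Real.sq_sqrt (by norm_num)]
    rw [h1]
    exact pow_le_pow_right₀ (Real.one_le_sqrt.2 (by norm_num)) (by omega)
  have hmk : ∀ j : ℕ, μ {ω | ENNReal.ofReal (t j) ≤ S j ω} ≤ ENNReal.ofReal (2 * m * (n₀ + 1) * (((j : ℝ) + 1) ^ U * ρ ^ j) +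
      2 * K' * (1 / ((j : ℝ) + 1) ^ 2)) := by
    intro j
    have hfm : Measurable (S j) := by
      rw [hS]
      exact Finset.measurable_sum _ fun n _ => measurable_const.indicator (hE n)
    have h1 := mul_meas_ge_le_lintegral hfm (ENNReal.ofReal (t j)) (μ := μ)
    have h2 := h1.trans (hint j)
    have h3 : μ {ω | ENNReal.ofReal (t j) ≤ S j ω} ≤ ENNReal.ofReal (m * (n₀ + 2 ^ (j / 2)) +
        2 ^ j * (K' / ((j : ℝ) + 1) ^ (U + 2))) / ENNReal.ofReal (t j) := by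
      rw [ENNReal.le_div_iff_mul_le (Or.inl (by simpa using htpos j)) (Or.inl ENNReal.ofReal_ne_top), mul_comm]
      exact h2
    refine h3.trans ?_
    rw [← ENNReal.ofReal_div_of_pos (htpos j)]
    refine ENNReal.ofReal_le_ofReal ?_
    rw [div_le_iff₀ (htpos j)]
    have h8 : (2 * m * (n₀ + 1) * (((j : ℝ) + 1) ^ U * ρ ^ j) + 2 * K' * (1 / ((j : ℝ) + 1) ^ 2)) * t j =
        m * ((n₀ + 1) * (2 ^ j * ρ ^ j)) + 2 ^ j * (K' / ((j : ℝ) + 1) ^ (U + 2)) := by
      simp only [ht]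
      rw [pow_add _ U 2]
      field_simp
    rw [h8]
    have h9 : (n₀ : ℝ) + 2 ^ (j / 2) ≤ (n₀ + 1) * (2 ^ j * ρ ^ j) := by
      have e1 := hhalf j
      have e2 : (1 : ℝ) ≤ 2 ^ (j / 2) := one_le_pow₀ (by norm_num)
      have e3 : (0 : ℝ) ≤ n₀ := Nat.cast_nonneg _
      nlinarith
    gcongr
  have hsummable : Summable fun j : ℕ => 2 * m * (n₀ + 1) * (((j : ℝ) + 1) ^ U * ρ ^ j) +
      2 * K' * (1 / ((j : ℝ) + 1) ^ 2) := by
    refine Summable.add (Summable.mul_left _ ?_) (Summable.mul_left _ ?_)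
    · have h1 := summable_pow_mul_geometric_of_norm_lt_one U (r := ρ) (by rw [Real.norm_of_nonneg hρ0.le]; exact hρ1)
      have h2 := (summable_nat_add_iff 1).2 h1
      refine (h2.mul_left ρ⁻¹).congr fun j => ?_
      push_cast
      rw [pow_succ]
      field_simp
    · have h1 := (summable_nat_add_iff 1).2 (Real.summable_one_div_nat_pow.2 (one_lt_two))
      refine h1.congr fun j => ?_
      push_cast
      rfl
  have hBC : ∀ᵐ ω ∂μ, ∀ᶠ j in atTop, ω ∉ {ω | ENNReal.ofReal (t j) ≤ S j ω} := by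
    refine ae_eventually_notMem ?_
    refine ne_top_of_le_ne_top ?_ (ENNReal.tsum_le_tsum hmk)
    rw [← ENNReal.ofReal_tsum_of_nonneg (fun j => by positivity) hsummable]
    exact ENNReal.ofReal_ne_top
  filter_upwards [hBC] with ω hω
  obtain ⟨J, hJ⟩ := eventually_atTop.1 hω
  filter_upwards [eventually_ge_atTop (2 ^ J), eventually_ge_atTop 2] with M hM hM2
  obtain ⟨j, hj⟩ : ∃ j, j = Nat.log 2 M + 1 := ⟨_, rfl⟩
  have hMj : M < 2 ^ j := by rw [hj]; exact Nat.lt_pow_succ_log_self (by norm_num) M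
  have hMj2 : 2 ^ (j - 1) ≤ M := by
    rw [hj, Nat.add_sub_cancel]
    exact Nat.pow_log_le_self 2 (by omega)
  have hJj : J ≤ j := by
    have : J ≤ Nat.log 2 M := Nat.le_log_of_pow_le (by norm_num) hM
    omega
  have hlt := hJ j hJj
  simp only [not_le] at hlt
  have hcount : ENNReal.ofReal (({n : ℕ | n < M ∧ ω ∈ E n}.ncard : ℕ) : ℝ) ≤ S j ω := by
    have h1 : {n : ℕ | n < M ∧ ω ∈ E n} = ((range M).filter fun n => ω ∈ E n : Finset ℕ) := by
      ext n; simp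
    rw [h1, Set.ncard_coe_finset, ENNReal.ofReal_natCast, hS]
    simp only
    have h2 : ∀ n, Set.indicator (E n) (fun _ => (1 : ℝ≥0∞)) ω = if ω ∈ E n then 1 else 0 := fun n => by
      rw [Set.indicator_apply]
    simp only [h2]
    rw [← Finset.sum_filter, Finset.sum_const, nsmul_eq_mul, mul_one]
    have h3 : #{n ∈ range M | ω ∈ E n} ≤ #{n ∈ range (2 ^ j) | ω ∈ E n} := by
      refine card_le_card (filter_subset_filter _ ?_)
      exact range_subset_range.2 hMj.le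
    exact_mod_cast h3
  have h4 : (({n : ℕ | n < M ∧ ω ∈ E n}.ncard : ℕ) : ℝ) < t j := by
    have := hcount.trans_lt hlt
    exact (ENNReal.ofReal_lt_ofReal_iff (htpos j)).1 this
  refine h4.le.trans ?_
  have hlogM : 0 < Real.log M := Real.log_pos (by exact_mod_cast hM2)
  have hlj : Real.log M ≤ (j : ℝ) + 1 := by
    have h5 : Real.log M ≤ Real.log ((2 : ℝ) ^ j) := Real.log_le_log (by positivity) (by exact_mod_cast hMj.le)
    rw [Real.log_pow] at h5
    have h6 : Real.log 2 < 1 := by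
      have := Real.log_two_lt_d9
      linarith
    nlinarith [Nat.cast_nonneg (α := ℝ) j]
  have h2j : (2 : ℝ) ^ j ≤ 2 * M := by
    have h5 : (2 : ℝ) ^ (j - 1) ≤ M := by exact_mod_cast hMj2
    have h6 : (2 : ℝ) ^ j = 2 * 2 ^ (j - 1) := by
      rw [← pow_succ', Nat.sub_add_cancel (by omega)]
    linarith
  simp only [ht]
  rw [div_le_div_iff₀ (by positivity) (by positivity)]
  calc (2 : ℝ) ^ j * Real.log M ^ U ≤ (2 * M) * ((j : ℝ) + 1) ^ U := by gcongr
    _ = M * (2 * ((j : ℝ) + 1) ^ U) := by ring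

end Pool.Agent.L7h16.SV
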