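import Pool.Agent.L7h16.SV.Dens

/-!
# Random and metric sequences of vectors (helper16)
-/

set_option autoImplicit false

namespace Pool.Agent.L7h16.SV

open Finset MeasureTheory Filter
open scoped ENNReal Topology

variable {s : ℕ}

/-- All integral vectors `k` within `(log X) ^ A` of `y` have the property `P`. -/
def Around (X A : ℕ) (y : Fin s → ℝ) (P : (Fin s → ℤ) → Prop) : Prop :=
  ∀ k : Fin s → ℤ, (∀ j, |(k j : ℝ) - y j| ≤ Real.log X ^ A) → P k

/-- **Random and metric sequences of vectors.** The properties `Good i X` of integral vectors, `X` natural, hold along random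
and metric sequences of vectors in the boxes of sizes `X ^ (d_j)`.

(1) Let `Y_n` be random integral vectors, of ANY dependence, and `x_n` natural numbers with `x_n ≥ exp (n ^ δ)` for large `n`, such
that `|Y_{n,j}| ≤ B x_n ^ (d_j)` almost surely and every value of `Y_n` has the probability at most `C x_n ^ (-∑ d_j)`. Almost
surely, for all `i` and `A` for all large `n` all integral vectors at the distance at most `(log x_n) ^ A` from `Y_n` have the
property `Good i x_n`.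

(2) The same with `x_n ≥ n ^ δ`, for all but `M / (log M) ^ U` of the `n < M`, for all `U` and all large `M`.

(3) For all natural numbers `x_n` with `x_n ≥ exp (n ^ δ)` for large `n` and almost all `β` in `ℝ ^ s`: for all `i` and `A` for all
large `n` all integral vectors at the distance at most `(log x_n) ^ A` from `(β_j x_n ^ (d_j))` have the property `Good i x_n`.

(4) The same for natural numbers `x_n ≥ n ^ δ` (for instance `x_n = n`), for all but `M / (log M) ^ U` of the `n < M`, for all `U`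
and all large `M`. -/
structure RandomAndMetric (d : Fin s → ℕ) {ι : Type} (Good : ι → ℕ → (Fin s → ℤ) → Prop) : Prop where
  random : ∀ (Ω : Type) [MeasurableSpace Ω] (μ : Measure Ω) [IsFiniteMeasure μ] (x : ℕ → ℕ) (Y : ℕ → Ω → Fin s → ℤ) (B : ℕ)
    (C δ : ℝ), 0 < δ → (∀ n, Measurable (Y n)) →
    (∀ n k, μ {ω | Y n ω = k} ≤ ENNReal.ofReal (C / (x n : ℝ) ^ (∑ j, d j))) →
    (∀ n, ∀ᵐ ω ∂μ, ∀ j, |Y n ω j| ≤ ((B * x n ^ d j : ℕ) : ℤ)) → (∀ᶠ n : ℕ in atTop, Real.exp ((n : ℝ) ^ δ) ≤ x n) →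
    ∀ᵐ ω ∂μ, ∀ i (A : ℕ), ∀ᶠ n in atTop, Around (x n) A (fun j => (Y n ω j : ℝ)) (Good i (x n))
  randomDensity : ∀ (Ω : Type) [MeasurableSpace Ω] (μ : Measure Ω) [IsFiniteMeasure μ] (x : ℕ → ℕ) (Y : ℕ → Ω → Fin s → ℤ)
    (B : ℕ) (C δ : ℝ), 0 < δ → (∀ n, Measurable (Y n)) →
    (∀ n k, μ {ω | Y n ω = k} ≤ ENNReal.ofReal (C / (x n : ℝ) ^ (∑ j, d j))) →
    (∀ n, ∀ᵐ ω ∂μ, ∀ j, |Y n ω j| ≤ ((B * x n ^ d j : ℕ) : ℤ)) → (∀ᶠ n : ℕ in atTop, (n : ℝ) ^ δ ≤ x n) →
    ∀ᵐ ω ∂μ, ∀ i (A U : ℕ), ∀ᶠ M : ℕ in atTop,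
      ({n : ℕ | n < M ∧ ¬ Around (x n) A (fun j => (Y n ω j : ℝ)) (Good i (x n))}.ncard : ℝ) ≤ M / Real.log M ^ U
  metric : ∀ (x : ℕ → ℕ) (δ : ℝ), 0 < δ → (∀ᶠ n : ℕ in atTop, Real.exp ((n : ℝ) ^ δ) ≤ x n) →
    ∀ᵐ β : Fin s → ℝ, ∀ i (A : ℕ), ∀ᶠ n in atTop, Around (x n) A (fun j => β j * (x n : ℝ) ^ d j) (Good i (x n))
  metricDensity : ∀ (x : ℕ → ℕ) (δ : ℝ), 0 < δ → (∀ᶠ n : ℕ in atTop, (n : ℝ) ^ δ ≤ x n) →
    ∀ᵐ β : Fin s → ℝ, ∀ i (A U : ℕ), ∀ᶠ M : ℕ in atTop,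
      ({n : ℕ | n < M ∧ ¬ Around (x n) A (fun j => β j * (x n : ℝ) ^ d j) (Good i (x n))}.ncard : ℝ) ≤ M / Real.log M ^ U

section random

variable {d : Fin s → ℕ} {ι : Type} [Countable ι] {Good : ι → ℕ → (Fin s → ℤ) → Prop}

lemma set_eq (X A : ℕ) (y : Fin s → ℤ) (P : (Fin s → ℤ) → Prop) :
    ¬ Around X A (fun j => (y j : ℝ)) P ↔ ∃ k, (∀ j, |(k j : ℝ) - (y j : ℝ)| ≤ Real.log X ^ A) ∧ ¬ P k := by
  unfold Around
  push Not
  rfl

lemma exp_to {x : ℕ → ℕ} {δ : ℝ} (hδ : 0 < δ) (hx : ∀ᶠ n : ℕ in atTop, Real.exp ((n : ℝ) ^ δ) ≤ x n) :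
    Tendsto x atTop atTop := by
  have h1 : Tendsto (fun n : ℕ => ((x n : ℕ) : ℝ)) atTop atTop := by
    refine tendsto_atTop_mono' _ hx ?_
    exact Real.tendsto_exp_atTop.comp ((tendsto_rpow_atTop hδ).comp tendsto_natCast_atTop_atTop)
  exact tendsto_natCast_atTop_iff.1 h1

lemma pow_to {x : ℕ → ℕ} {δ : ℝ} (hδ : 0 < δ) (hx : ∀ᶠ n : ℕ in atTop, (n : ℝ) ^ δ ≤ x n) :
    Tendsto x atTop atTop := by
  have h1 : Tendsto (fun n : ℕ => ((x n : ℕ) : ℝ)) atTop atTop := by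
    refine tendsto_atTop_mono' _ hx ?_
    exact (tendsto_rpow_atTop hδ).comp tendsto_natCast_atTop_atTop
  exact tendsto_natCast_atTop_iff.1 h1

theorem random_eventually (hS : ∀ i, Sparse d (fun X k => ¬ Good i X k)) (hd : ∀ j, 1 ≤ d j)
    (Ω : Type) [MeasurableSpace Ω] (μ : Measure Ω) [IsFiniteMeasure μ] (x : ℕ → ℕ) (Y : ℕ → Ω → Fin s → ℤ) (B : ℕ)
    (C δ : ℝ) (hδ : 0 < δ)
    (hYk : ∀ n k, μ {ω | Y n ω = k} ≤ ENNReal.ofReal (C / (x n : ℝ) ^ (∑ j, d j)))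
    (hYb : ∀ n, ∀ᵐ ω ∂μ, ∀ j, |Y n ω j| ≤ ((B * x n ^ d j : ℕ) : ℤ))
    (hx : ∀ᶠ n : ℕ in atTop, Real.exp ((n : ℝ) ^ δ) ≤ x n) :
    ∀ᵐ ω ∂μ, ∀ i (A : ℕ), ∀ᶠ n in atTop, Around (x n) A (fun j => (Y n ω j : ℝ)) (Good i (x n)) := by
  rw [ae_all_iff]
  intro i
  rw [ae_all_iff]
  intro A
  obtain ⟨V, hV⟩ := exists_nat_ge (2 / δ)
  obtain ⟨X₀, hX₃, hX₀⟩ := core (hS i) hd B A V (C := |C|) (abs_nonneg _)
  have h1 : ∀ᶠ n : ℕ in atTop, μ {ω | ¬ Around (x n) A (fun j => (Y n ω j : ℝ)) (Good i (x n))} ≤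
      ENNReal.ofReal (1 / (n : ℝ) ^ 2) := by
    filter_upwards [hx, (exp_to hδ hx).eventually_ge_atTop X₀, eventually_ge_atTop 1] with n h2 h3 h4
    have h5 := hX₀ (x n) h3 μ (Y n) (fun k => (hYk n k).trans (ENNReal.ofReal_le_ofReal (by
      gcongr
      exact le_abs_self C))) (hYb n)
    have h6 : {ω | ¬ Around (x n) A (fun j => (Y n ω j : ℝ)) (Good i (x n))} =
        {ω | ∃ k, (∀ j, |(k j : ℝ) - (Y n ω j : ℝ)| ≤ Real.log (x n) ^ A) ∧ ¬ Good i (x n) k} := by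
      ext ω
      exact set_eq _ _ _ _
    rw [h6]
    refine h5.trans (ENNReal.ofReal_le_ofReal ?_)
    have h7 : (n : ℝ) ^ δ ≤ Real.log (x n) := by
      rw [Real.le_log_iff_exp_le (by
        have : (0 : ℝ) < Real.exp ((n : ℝ) ^ δ) := Real.exp_pos _
        linarith)]
      exact h2
    have hn1 : (1 : ℝ) ≤ n := by exact_mod_cast h4
    have h8 : (n : ℝ) ^ 2 ≤ Real.log (x n) ^ V := by
      calc (n : ℝ) ^ 2 = (n : ℝ) ^ (2 : ℝ) := by norm_num
        _ ≤ (n : ℝ) ^ (δ * V) := by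
            refine Real.rpow_le_rpow_of_exponent_le hn1 ?_
            rw [div_le_iff₀ hδ] at hV
            linarith
        _ = ((n : ℝ) ^ δ) ^ V := by rw [Real.rpow_mul (by linarith), Real.rpow_natCast]
        _ ≤ _ := by gcongr
    gcongr
  obtain ⟨N, hN⟩ := eventually_atTop.1 h1
  have h2 : ∀ᵐ ω ∂μ, ∀ᶠ n in atTop, ω ∉ {ω | ¬ Around (x (n + N)) A (fun j => (Y (n + N) ω j : ℝ)) (Good i (x (n + N)))} := by
    refine ae_eventually_notMem ?_
    refine ne_top_of_le_ne_top ?_ (ENNReal.tsum_le_tsum fun n => hN (n + N) (by omega))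
    have h3 : Summable fun n : ℕ => 1 / (((n + N : ℕ) : ℝ)) ^ 2 :=
      (summable_nat_add_iff N).2 (Real.summable_one_div_nat_pow.2 (one_lt_two))
    rw [← ENNReal.ofReal_tsum_of_nonneg (fun n => by positivity) h3]
    exact ENNReal.ofReal_ne_top
  filter_upwards [h2] with ω hω
  obtain ⟨J, hJ⟩ := eventually_atTop.1 hω
  filter_upwards [eventually_ge_atTop (J + N)] with n hn
  have h3 := hJ (n - N) (by omega)
  rw [Nat.sub_add_cancel (by omega)] at h3
  exact not_not.1 h3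

theorem random_density (hS : ∀ i, Sparse d (fun X k => ¬ Good i X k)) (hd : ∀ j, 1 ≤ d j)
    (Ω : Type) [MeasurableSpace Ω] (μ : Measure Ω) [IsFiniteMeasure μ] (x : ℕ → ℕ) (Y : ℕ → Ω → Fin s → ℤ) (B : ℕ)
    (C δ : ℝ) (hδ : 0 < δ) (hYm : ∀ n, Measurable (Y n))
    (hYk : ∀ n k, μ {ω | Y n ω = k} ≤ ENNReal.ofReal (C / (x n : ℝ) ^ (∑ j, d j)))
    (hYb : ∀ n, ∀ᵐ ω ∂μ, ∀ j, |Y n ω j| ≤ ((B * x n ^ d j : ℕ) : ℤ))
    (hx : ∀ᶠ n : ℕ in atTop, (n : ℝ) ^ δ ≤ x n) :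
    ∀ᵐ ω ∂μ, ∀ i (A U : ℕ), ∀ᶠ M : ℕ in atTop,
      ({n : ℕ | n < M ∧ ¬ Around (x n) A (fun j => (Y n ω j : ℝ)) (Good i (x n))}.ncard : ℝ) ≤ M / Real.log M ^ U := by
  rw [ae_all_iff]
  intro i
  rw [ae_all_iff]
  intro A
  refine ae_density μ (fun n => {ω | ¬ Around (x n) A (fun j => (Y n ω j : ℝ)) (Good i (x n))}) (fun n => ?_) fun V => ?_
  · have h1 : {ω | ¬ Around (x n) A (fun j => (Y n ω j : ℝ)) (Good i (x n))} =
        Y n ⁻¹' {y | ¬ Around (x n) A (fun j => (y j : ℝ)) (Good i (x n))} := rfl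
    rw [h1]
    exact hYm n (measurableSet_setOfPred.2 Measurable.of_discrete)
  · obtain ⟨X₀, hX₃, hX₀⟩ := core (hS i) hd B A V (C := |C|) (abs_nonneg _)
    have h1 : ∀ᶠ n : ℕ in atTop, μ {ω | ¬ Around (x n) A (fun j => (Y n ω j : ℝ)) (Good i (x n))} ≤
        ENNReal.ofReal ((1 / δ ^ V) / Real.log n ^ V) := by
      filter_upwards [hx, (pow_to hδ hx).eventually_ge_atTop X₀, eventually_ge_atTop 2] with n h2 h3 h4
      have h5 := hX₀ (x n) h3 μ (Y n) (fun k => (hYk n k).trans (ENNReal.ofReal_le_ofReal (by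
        gcongr
        exact le_abs_self C))) (hYb n)
      have h6 : {ω | ¬ Around (x n) A (fun j => (Y n ω j : ℝ)) (Good i (x n))} =
          {ω | ∃ k, (∀ j, |(k j : ℝ) - (Y n ω j : ℝ)| ≤ Real.log (x n) ^ A) ∧ ¬ Good i (x n) k} := by
        ext ω
        exact set_eq _ _ _ _
      rw [h6]
      refine h5.trans (ENNReal.ofReal_le_ofReal ?_)
      have hn0 : (0 : ℝ) < n := by
        have : (2 : ℝ) ≤ n := by exact_mod_cast h4
        linarith
      have hlog : 0 < Real.log n := Real.log_pos (by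
        have : (2 : ℝ) ≤ n := by exact_mod_cast h4
        linarith)
      have h7 : δ * Real.log n ≤ Real.log (x n) := by
        rw [← Real.log_rpow hn0]
        exact Real.log_le_log (by positivity) h2
      rw [div_div, ← mul_pow]
      gcongr
    obtain ⟨N, hN⟩ := eventually_atTop.1 h1
    exact ⟨1 / δ ^ V, max N 2, by positivity, le_max_right _ _, fun n hn => hN n ((le_max_left _ _).trans hn)⟩

end random

section metric

lemma floor_density (d : Fin s → ℕ) {X : ℕ} (hX : 1 ≤ X) (k : Fin s → ℤ) :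
    (volume : Measure (Fin s → ℝ)) {β | (fun j => ⌊β j * (X : ℝ) ^ d j⌋) = k} ≤
      ENNReal.ofReal (1 / (X : ℝ) ^ (∑ j, d j)) := by
  have hX0 : (0 : ℝ) < X := by exact_mod_cast hX
  have h1 : {β : Fin s → ℝ | (fun j => ⌊β j * (X : ℝ) ^ d j⌋) = k} ⊆
      Set.pi Set.univ fun j => Set.Ico ((k j : ℝ) / (X : ℝ) ^ d j) (((k j : ℝ) + 1) / (X : ℝ) ^ d j) := by
    intro β hβ j _
    have h2 : ⌊β j * (X : ℝ) ^ d j⌋ = k j := congrFun hβ j
    rw [Int.floor_eq_iff] at h2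
    have h3 : (0 : ℝ) < (X : ℝ) ^ d j := by positivity
    exact ⟨(div_le_iff₀ h3).2 h2.1, (lt_div_iff₀ h3).2 h2.2⟩
  refine (measure_mono h1).trans ?_
  rw [Real.volume_pi_Ico]
  have h2 : ∀ j, ((k j : ℝ) + 1) / (X : ℝ) ^ d j - (k j : ℝ) / (X : ℝ) ^ d j = 1 / (X : ℝ) ^ d j := fun j => by ring
  simp only [h2]
  rw [← ENNReal.ofReal_prod_of_nonneg (fun j _ => by positivity)]
  refine ENNReal.ofReal_le_ofReal (le_of_eq ?_)
  rw [Finset.prod_div_distrib, Finset.prod_const_one, Finset.prod_pow_eq_pow_sum]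

lemma around_real {X A : ℕ} (hX : 8 ≤ X) {y : Fin s → ℝ} {P : (Fin s → ℤ) → Prop}
    (h : Around X (A + 1) (fun j => (⌊y j⌋ : ℝ)) P) : Around X A y P := by
  intro k hk
  refine h k fun j => ?_
  have hlog : 2 ≤ Real.log X := by
    rw [Real.le_log_iff_exp_le (by positivity)]
    have h1 : Real.exp 2 ≤ 8 := by
      have e1 : Real.exp 2 = Real.exp 1 ^ 2 := by rw [← Real.exp_nat_mul]; norm_num
      have e2 := Real.exp_one_lt_d9
      rw [e1]
      nlinarith [Real.exp_pos 1]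
    have h2 : (8 : ℝ) ≤ X := by exact_mod_cast hX
    linarith
  have h1 := hk j
  have h2 : |y j - ⌊y j⌋| ≤ 1 := by
    rw [abs_le]
    constructor
    · linarith [Int.floor_le (y j)]
    · linarith [Int.lt_floor_add_one (y j)]
  have h3 : |(k j : ℝ) - ⌊y j⌋| ≤ |(k j : ℝ) - y j| + |y j - ⌊y j⌋| := abs_sub_le _ _ _
  have h4 : 1 ≤ Real.log X ^ A := one_le_pow₀ (by linarith)
  calc |(k j : ℝ) - ⌊y j⌋| ≤ Real.log X ^ A + 1 := by linarith
    _ ≤ Real.log X ^ A * 2 := by linarith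
    _ ≤ Real.log X ^ A * Real.log X := by gcongr
    _ = Real.log X ^ (A + 1) := (pow_succ _ _).symm

/-- the cube `[-m, m] ^ s` -/
def cube (s m : ℕ) : Set (Fin s → ℝ) := Set.Icc (fun _ => -(m : ℝ)) (fun _ => (m : ℝ))

lemma floor_bound (d : Fin s → ℕ) {X : ℕ} (hX : 1 ≤ X) {m : ℕ} {β : Fin s → ℝ} (hβ : β ∈ cube s m) (j : Fin s) :
    |⌊β j * (X : ℝ) ^ d j⌋| ≤ (((m + 1) * X ^ d j : ℕ) : ℤ) := by
  have h1 : |β j| ≤ m := abs_le.2 ⟨hβ.1 j, hβ.2 j⟩
  have h3 : (1 : ℝ) ≤ (X : ℝ) ^ d j := one_le_pow₀ (by exact_mod_cast hX)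
  have h4 : |β j * (X : ℝ) ^ d j| ≤ m * (X : ℝ) ^ d j := by
    rw [abs_mul, abs_of_pos (by positivity : (0 : ℝ) < (X : ℝ) ^ d j)]
    gcongr
  have h5 := abs_le.1 h4
  have h6 : (((m + 1) * X ^ d j : ℕ) : ℝ) = m * (X : ℝ) ^ d j + (X : ℝ) ^ d j := by push_cast; ring
  rw [abs_le]
  constructor
  · rw [Int.le_floor]
    push_cast
    push_cast at h6
    rw [h6]
    linarith [h5.1]
  · have h7 := Int.floor_le (β j * (X : ℝ) ^ d j)
    have h8 : ((⌊β j * (X : ℝ) ^ d j⌋ : ℤ) : ℝ) ≤ ((((m + 1) * X ^ d j : ℕ) : ℤ) : ℝ) := by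
      rw [Int.cast_natCast, h6]
      linarith [h5.2]
    exact_mod_cast h8

lemma ae_of_cubes {P : (Fin s → ℝ) → Prop} (h : ∀ m : ℕ, ∀ᵐ β ∂((volume : Measure (Fin s → ℝ)).restrict (cube s m)), P β) :
    ∀ᵐ β : Fin s → ℝ, P β := by
  have h1 : ∀ m : ℕ, ∀ᵐ β : Fin s → ℝ, β ∈ cube s m → P β :=
    fun m => (ae_restrict_iff' (measurableSet_Icc)).1 (h m)
  filter_upwards [ae_all_iff.2 h1] with β hβ
  obtain ⟨m, hm⟩ := exists_nat_ge (∑ j, |β j|)
  refine hβ m ⟨fun j => ?_, fun j => ?_⟩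
  · have h2 := Finset.single_le_sum (f := fun j => |β j|) (fun j _ => abs_nonneg _) (Finset.mem_univ j)
    exact (abs_le.1 (h2.trans hm)).1
  · have h2 := Finset.single_le_sum (f := fun j => |β j|) (fun j _ => abs_nonneg _) (Finset.mem_univ j)
    exact (abs_le.1 (h2.trans hm)).2

instance cube_finite (m : ℕ) : IsFiniteMeasure ((volume : Measure (Fin s → ℝ)).restrict (cube s m)) := by
  refine ⟨?_⟩
  rw [Measure.restrict_apply_univ]
  exact isCompact_Icc.measure_lt_top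

variable {d : Fin s → ℕ} {ι : Type} [Countable ι] {Good : ι → ℕ → (Fin s → ℤ) → Prop}

/-- the truncated sequence of random vectors: zero where `x_n = 0` -/
lemma meas (d : Fin s → ℕ) (X : ℕ) : Measurable fun (β : Fin s → ℝ) j => ⌊β j * (X : ℝ) ^ d j⌋ := by
  refine measurable_pi_lambda _ fun j => ?_
  exact Int.measurable_floor.comp ((measurable_pi_apply j).mul_const _)

end metric

/-- **Theorem.** Sparse sets are avoided by random and metric sequences of vectors. -/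
theorem randomAndMetric {d : Fin s → ℕ} {ι : Type} [Countable ι] (Good : ι → ℕ → (Fin s → ℤ) → Prop)
    (hd : ∀ j, 1 ≤ d j) (hS : ∀ i, Sparse d (fun X k => ¬ Good i X k)) : RandomAndMetric d Good where
  random := fun Ω _ μ _ x Y B C δ hδ _ h2 h3 h4 => random_eventually hS hd Ω μ x Y B C δ hδ h2 h3 h4
  randomDensity := fun Ω _ μ _ x Y B C δ hδ h1 h2 h3 h4 => random_density hS hd Ω μ x Y B C δ hδ h1 h2 h3 h4
  metric := by
    intro x δ hδ hx
    refine ae_of_cubes fun m => ?_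
    obtain ⟨x', hx'⟩ : ∃ x' : ℕ → ℕ, x' = fun n => max (x n) 1 := ⟨_, rfl⟩
    have hx1 : ∀ n, 1 ≤ x' n := fun n => by rw [hx']; exact le_max_right _ _
    have hx2 : ∀ᶠ n : ℕ in atTop, Real.exp ((n : ℝ) ^ δ) ≤ x' n := by
      filter_upwards [hx] with n hn
      rw [hx']
      push_cast
      exact hn.trans (le_max_left _ _)
    have h := random_eventually hS hd (Fin s → ℝ) ((volume : Measure (Fin s → ℝ)).restrict (cube s m)) x'
      (fun n β j => ⌊β j * (x' n : ℝ) ^ d j⌋) (m + 1) 1 δ hδ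
      (fun n k => (Measure.restrict_apply_le _ _).trans (floor_density d (hx1 n) k))
      (fun n => by
        filter_upwards [ae_restrict_mem (measurableSet_Icc : MeasurableSet (cube s m))] with β hβ j
        exact floor_bound d (hx1 n) hβ j) hx2
    filter_upwards [h] with β hβ i A
    filter_upwards [hβ i (A + 1), (exp_to hδ hx).eventually_ge_atTop 8] with n hn h8
    have h9 : x' n = x n := by rw [hx']; exact max_eq_left (by omega)
    rw [h9] at hn
    exact around_real h8 hn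
  metricDensity := by
    intro x δ hδ hx
    refine ae_of_cubes fun m => ?_
    obtain ⟨x', hx'⟩ : ∃ x' : ℕ → ℕ, x' = fun n => max (x n) 1 := ⟨_, rfl⟩
    have hx1 : ∀ n, 1 ≤ x' n := fun n => by rw [hx']; exact le_max_right _ _
    have hx2 : ∀ᶠ n : ℕ in atTop, (n : ℝ) ^ δ ≤ x' n := by
      filter_upwards [hx] with n hn
      rw [hx']
      push_cast
      exact hn.trans (le_max_left _ _)
    have h := random_density hS hd (Fin s → ℝ) ((volume : Measure (Fin s → ℝ)).restrict (cube s m)) x'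
      (fun n β j => ⌊β j * (x' n : ℝ) ^ d j⌋) (m + 1) 1 δ hδ (fun n => meas d (x' n))
      (fun n k => (Measure.restrict_apply_le _ _).trans (floor_density d (hx1 n) k))
      (fun n => by
        filter_upwards [ae_restrict_mem (measurableSet_Icc : MeasurableSet (cube s m))] with β hβ j
        exact floor_bound d (hx1 n) hβ j) hx2
    obtain ⟨N, hN⟩ := eventually_atTop.1 ((pow_to hδ hx).eventually_ge_atTop 8)
    filter_upwards [h] with β hβ i A U
    have hlog : ∀ᶠ M : ℕ in atTop, Real.log M ^ U * (2 * N) ≤ M := by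
      have h1 := (isLittleO_log_rpow_rpow_atTop (U : ℝ) (s := 1) one_pos).bound (c := 1 / (2 * N + 1)) (by positivity)
      have h2 := tendsto_natCast_atTop_atTop (R := ℝ) |>.eventually h1
      filter_upwards [h2, eventually_ge_atTop 3] with M hM hM3
      have h3 : (0 : ℝ) ≤ Real.log M := Real.log_natCast_nonneg _
      rw [Real.rpow_natCast, Real.rpow_one, Real.norm_of_nonneg (by positivity), Real.norm_of_nonneg (by positivity)] at hM
      have h4 : Real.log M ^ U * (2 * N + 1) ≤ M := by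
        rw [one_div, inv_mul_eq_div, le_div_iff₀ (by positivity)] at hM
        exact hM
      nlinarith [pow_nonneg h3 U]
    have hl1 : ∀ᶠ M : ℕ in atTop, 2 ≤ Real.log M :=
      (Real.tendsto_log_atTop.comp (tendsto_natCast_atTop_atTop (R := ℝ))).eventually_ge_atTop _
    filter_upwards [hβ i (A + 1) (U + 1), hlog, hl1] with M hM hM2 hM3
    have hsub : {n : ℕ | n < M ∧ ¬ Around (x n) A (fun j => β j * (x n : ℝ) ^ d j) (Good i (x n))} ⊆
        {n : ℕ | n < N} ∪ {n : ℕ | n < M ∧ ¬ Around (x' n) (A + 1) (fun j => ((⌊β j * (x' n : ℝ) ^ d j⌋ : ℤ) : ℝ))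
          (Good i (x' n))} := by
      rintro n ⟨h1, h2⟩
      rcases lt_or_ge n N with h3 | h3
      · exact Or.inl h3
      · right
        refine ⟨h1, fun h4 => h2 ?_⟩
        have h8 := hN n h3
        have h9 : x' n = x n := by rw [hx']; exact max_eq_left (by omega)
        rw [h9] at h4
        exact around_real h8 h4
    have hf1 : {n : ℕ | n < N}.Finite := Set.finite_lt_nat N
    have hf2 : {n : ℕ | n < M ∧ ¬ Around (x' n) (A + 1) (fun j => ((⌊β j * (x' n : ℝ) ^ d j⌋ : ℤ) : ℝ))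
          (Good i (x' n))}.Finite := (Set.finite_lt_nat M).subset fun n hn => hn.1
    have h3 := (Set.ncard_le_ncard hsub (hf1.union hf2)).trans (Set.ncard_union_le _ _)
    have h4 : {n : ℕ | n < N}.ncard = N := by
      rw [show {n : ℕ | n < N} = ((range N : Finset ℕ) : Set ℕ) by ext; simp, Set.ncard_coe_finset, card_range]
    rw [h4] at h3
    have h5 : (({n : ℕ | n < M ∧ ¬ Around (x n) A (fun j => β j * (x n : ℝ) ^ d j) (Good i (x n))}.ncard : ℕ) : ℝ) ≤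
        N + M / Real.log M ^ (U + 1) := by
      have h6 : (({n : ℕ | n < M ∧ ¬ Around (x n) A (fun j => β j * (x n : ℝ) ^ d j) (Good i (x n))}.ncard : ℕ) : ℝ) ≤
        ((N + {n : ℕ | n < M ∧ ¬ Around (x' n) (A + 1) (fun j => ((⌊β j * (x' n : ℝ) ^ d j⌋ : ℤ) : ℝ))
          (Good i (x' n))}.ncard : ℕ) : ℝ) := by exact_mod_cast h3
      push_cast at h6
      linarith
    refine h5.trans ?_
    have hl0 : 0 < Real.log M := by linarith
    have h6 : (N : ℝ) ≤ M / Real.log M ^ U / 2 := by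
      rw [le_div_iff₀ (by norm_num), le_div_iff₀ (by positivity)]
      linarith
    have h7 : (M : ℝ) / Real.log M ^ (U + 1) ≤ M / Real.log M ^ U / 2 := by
      rw [div_div, pow_succ]
      gcongr
    linarith

end Pool.Agent.L7h16.SV
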