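import Pool.Agent.L7h16.SV.Fam

/-!
# Random and metric sequences of vectors, for sets with a given logarithmic saving (helper16)
-/

set_option autoImplicit false

namespace Pool.Agent.L7h16.SV

open Finset MeasureTheory Filter
open scoped ENNReal Topology

variable {s : ℕ}

/-- the sets `Bad X` have at most `X ^ (∑ d_j) / (log X) ^ W` members in the boxes `|k_j| ≤ B X ^ (d_j)` -/
def SparseW (d : Fin s → ℕ) (W : ℕ) (Bad : ℕ → (Fin s → ℤ) → Prop) : Prop :=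
  ∀ B : ℕ, ∃ X₀ : ℕ, ∀ X : ℕ, X₀ ≤ X →
    ({k : Fin s → ℤ | (∀ j, |k j| ≤ ((B * X ^ d j : ℕ) : ℤ)) ∧ Bad X k}.ncard : ℝ) ≤
      (X : ℝ) ^ (∑ j, d j) / Real.log X ^ W

/-- **The basic estimate.** -/
theorem coreW {d : Fin s → ℕ} {Bad : ℕ → (Fin s → ℤ) → Prop} (hd : ∀ j, 1 ≤ d j) (B A V : ℕ)
    (hS : SparseW d (V + (A * s + s + 1)) Bad) {C : ℝ} (hC : 0 ≤ C) :
    ∃ X₀ : ℕ, 3 ≤ X₀ ∧ ∀ X : ℕ, X₀ ≤ X → ∀ {Ω : Type} [MeasurableSpace Ω] (μ : Measure Ω) (Y : Ω → Fin s → ℤ),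
      (∀ k, μ {ω | Y ω = k} ≤ ENNReal.ofReal (C / (X : ℝ) ^ (∑ j, d j))) →
      (∀ᵐ ω ∂μ, ∀ j, |Y ω j| ≤ ((B * X ^ d j : ℕ) : ℤ)) →
      μ {ω | ∃ k, (∀ j, |(k j : ℝ) - (Y ω j : ℝ)| ≤ Real.log X ^ A) ∧ Bad X k} ≤ ENNReal.ofReal (1 / Real.log X ^ V) := by
  obtain ⟨W, hW⟩ : ∃ W : ℕ, W = V + (A * s + s + 1) := ⟨_, rfl⟩
  rw [← hW] at hS
  obtain ⟨X₁, hX₁⟩ := hS (B + 1)
  -- `log X ^ A ≤ X`
  have hlog : ∀ᶠ X : ℕ in atTop, Real.log X ^ A ≤ X := by
    have h1 := (isLittleO_log_rpow_rpow_atTop (A : ℝ) (s := 1) one_pos).bound (c := 1) one_pos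
    have h2 := tendsto_natCast_atTop_atTop (R := ℝ) |>.eventually h1
    filter_upwards [h2, eventually_ge_atTop 3] with X hX hX3
    have h3 : (0 : ℝ) ≤ Real.log X := Real.log_natCast_nonneg _
    rw [Real.rpow_natCast, Real.rpow_one, one_mul, Real.norm_of_nonneg (by positivity), Real.norm_of_nonneg (by positivity)] at hX
    exact hX
  have hlog2 : ∀ᶠ X : ℕ in atTop, max 3 (3 ^ s * C) ≤ Real.log X :=
    (Real.tendsto_log_atTop.comp (tendsto_natCast_atTop_atTop (R := ℝ))).eventually_ge_atTop _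
  obtain ⟨X₂, hX₂⟩ := eventually_atTop.1 (hlog.and hlog2)
  refine ⟨max (max X₁ X₂) 3, le_max_right _ _, fun X hX Ω _ μ Y hY hB => ?_⟩
  obtain ⟨hXA, hX3⟩ := hX₂ X (((le_max_right _ _).trans (le_max_left _ _)).trans hX)
  have hXb := hX₁ X (((le_max_left _ _).trans (le_max_left _ _)).trans hX)
  have hX3' : 3 ≤ X := (le_max_right _ _).trans hX
  have hXr : (3 : ℝ) ≤ X := by exact_mod_cast hX3'
  have hL3 : (3 : ℝ) ≤ Real.log X := (le_max_left _ _).trans hX3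
  have hLC : 3 ^ s * C ≤ Real.log X := (le_max_right _ _).trans hX3
  have hfin := box_finite d (B + 1) X (Bad X)
  obtain ⟨L, hL⟩ : ∃ L, L = ⌊Real.log X ^ A⌋₊ := ⟨_, rfl⟩
  have hLX : L ≤ X := by
    rw [hL]
    exact Nat.floor_le_of_le hXA
  have hsub : {ω | ∃ k, (∀ j, |(k j : ℝ) - (Y ω j : ℝ)| ≤ Real.log X ^ A) ∧ Bad X k} ≤ᵐ[μ]
      {ω | ∃ k ∈ hfin.toFinset, ∀ j, |k j - Y ω j| ≤ (L : ℤ)} := by
    filter_upwards [hB] with ω hBω
    rintro ⟨k, hk, hbad⟩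
    have h1 : ∀ j, |k j - Y ω j| ≤ (L : ℤ) := by
      intro j
      have h2 : ((|k j - Y ω j| : ℤ) : ℝ) ≤ Real.log X ^ A := by push_cast; exact hk j
      have h3 : (((k j - Y ω j).natAbs : ℕ) : ℝ) ≤ Real.log X ^ A := by
        rw [Nat.cast_natAbs]; exact h2
      have h4 : (k j - Y ω j).natAbs ≤ L := by rw [hL]; exact Nat.le_floor h3
      rw [Int.abs_eq_natAbs]; exact_mod_cast h4
    refine ⟨k, ?_, h1⟩
    rw [Set.Finite.mem_toFinset]
    refine ⟨fun j => ?_, hbad⟩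
    have h2 := hBω j
    have h3 := h1 j
    have h4 : X ≤ X ^ d j := Nat.le_self_pow (by have := hd j; omega) X
    have h5 : |k j| ≤ |Y ω j| + |k j - Y ω j| := by
      have := abs_add_le (Y ω j) (k j - Y ω j)
      rwa [add_sub_cancel] at this
    have h6 : ((L : ℕ) : ℤ) ≤ ((X ^ d j : ℕ) : ℤ) := by exact_mod_cast hLX.trans h4
    have h7 : (((B + 1) * X ^ d j : ℕ) : ℤ) = ((B * X ^ d j : ℕ) : ℤ) + ((X ^ d j : ℕ) : ℤ) := by push_cast; ring
    rw [h7]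
    linarith
  refine (measure_mono_ae hsub).trans ((near_measure μ Y _ hY _ L).trans ?_)
  have hcard : ((hfin.toFinset).card : ℝ) ≤ (X : ℝ) ^ (∑ j, d j) / Real.log X ^ W := by
    rw [← Set.ncard_eq_toFinset_card _ hfin]
    exact hXb
  have e1 : (((hfin.toFinset).card : ℕ) : ℝ≥0∞) * ((2 * (L : ℝ≥0∞) + 1) ^ s * ENNReal.ofReal (C / (X : ℝ) ^ (∑ j, d j))) =
      ENNReal.ofReal (((hfin.toFinset).card : ℝ) * ((2 * (L : ℝ) + 1) ^ s * (C / (X : ℝ) ^ (∑ j, d j)))) := by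
    rw [ENNReal.ofReal_mul (by positivity), ENNReal.ofReal_mul (by positivity), ENNReal.ofReal_natCast,
      ENNReal.ofReal_pow (by positivity), ENNReal.ofReal_add (by positivity) (by positivity), ENNReal.ofReal_mul (by positivity),
      ENNReal.ofReal_natCast, ENNReal.ofReal_one, ENNReal.ofReal_ofNat]
  rw [e1]
  refine ENNReal.ofReal_le_ofReal ?_
  have hlp : 0 < Real.log X := by linarith
  have hXD : (0 : ℝ) < (X : ℝ) ^ (∑ j, d j) := by positivity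
  have h2L : 2 * (L : ℝ) + 1 ≤ 3 * Real.log X ^ A := by
    have h1 : (L : ℝ) ≤ Real.log X ^ A := by rw [hL]; exact Nat.floor_le (by positivity)
    have h2 : 1 ≤ Real.log X ^ A := one_le_pow₀ (by linarith)
    linarith
  calc ((hfin.toFinset).card : ℝ) * ((2 * (L : ℝ) + 1) ^ s * (C / (X : ℝ) ^ (∑ j, d j)))
      ≤ ((X : ℝ) ^ (∑ j, d j) / Real.log X ^ W) * ((3 * Real.log X ^ A) ^ s * (C / (X : ℝ) ^ (∑ j, d j))) := by
        gcongr
    _ = (3 ^ s * C) * (Real.log X ^ (A * s)) / Real.log X ^ W := by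
        rw [mul_pow, ← pow_mul]
        field_simp
    _ ≤ Real.log X * (Real.log X ^ (A * s)) / Real.log X ^ W := by gcongr
    _ ≤ 1 / Real.log X ^ V := by
        rw [div_le_div_iff₀ (by positivity) (by positivity), one_mul]
        have e2 : Real.log X * Real.log X ^ (A * s) * Real.log X ^ V = Real.log X ^ (V + (A * s + 1)) := by
          rw [pow_add, pow_add, pow_one]; ring
        rw [e2, hW]
        exact pow_le_pow_right₀ (by linarith) (by omega)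

section random

variable {d : Fin s → ℕ} {Bad : ℕ → (Fin s → ℤ) → Prop}

/-- **Random vectors of exponential growth**, if the saving is large enough: `V ≥ 2 / δ`. -/
theorem random_eventuallyW (hd : ∀ j, 1 ≤ d j)
    (Ω : Type) [MeasurableSpace Ω] (μ : Measure Ω) [IsFiniteMeasure μ] (x : ℕ → ℕ) (Y : ℕ → Ω → Fin s → ℤ) (B : ℕ)
    (C δ : ℝ) (hδ : 0 < δ)
    (hYk : ∀ n k, μ {ω | Y n ω = k} ≤ ENNReal.ofReal (C / (x n : ℝ) ^ (∑ j, d j)))
    (hYb : ∀ n, ∀ᵐ ω ∂μ, ∀ j, |Y n ω j| ≤ ((B * x n ^ d j : ℕ) : ℤ))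
    (hx : ∀ᶠ n : ℕ in atTop, Real.exp ((n : ℝ) ^ δ) ≤ x n) (A V : ℕ) (hV : 2 / δ ≤ V)
    (hS : SparseW d (V + (A * s + s + 1)) Bad) :
    ∀ᵐ ω ∂μ, ∀ᶠ n in atTop, Around (x n) A (fun j => (Y n ω j : ℝ)) (fun k => ¬ Bad (x n) k) := by
  obtain ⟨X₀, hX₃, hX₀⟩ := coreW hd B A V hS (C := |C|) (abs_nonneg _)
  have h1 : ∀ᶠ n : ℕ in atTop, μ {ω | ¬ Around (x n) A (fun j => (Y n ω j : ℝ)) (fun k => ¬ Bad (x n) k)} ≤
      ENNReal.ofReal (1 / (n : ℝ) ^ 2) := by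
    filter_upwards [hx, (exp_to hδ hx).eventually_ge_atTop X₀, eventually_ge_atTop 1] with n h2 h3 h4
    have h5 := hX₀ (x n) h3 μ (Y n) (fun k => (hYk n k).trans (ENNReal.ofReal_le_ofReal (by
      gcongr
      exact le_abs_self C))) (hYb n)
    have h6 : {ω | ¬ Around (x n) A (fun j => (Y n ω j : ℝ)) (fun k => ¬ Bad (x n) k)} =
        {ω | ∃ k, (∀ j, |(k j : ℝ) - (Y n ω j : ℝ)| ≤ Real.log (x n) ^ A) ∧ Bad (x n) k} := by
      ext ω
      show ¬ Around (x n) A (fun j => (Y n ω j : ℝ)) (fun k => ¬ Bad (x n) k) ↔ _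
      rw [set_eq]
      simp only [not_not]
      rfl
    rw [h6]
    refine h5.trans (ENNReal.ofReal_le_ofReal ?_)
    have h7 : (n : ℝ) ^ δ ≤ Real.log (x n) := by
      rw [Real.le_log_iff_exp_le (by
        have : (0 : ℝ) < Real.exp ((n : ℝ) ^ δ) := Real.exp_pos _
        linarith)]
      exact h2
    have hn1 : (1 : ℝ) ≤ n := by exact_mod_cast h4
    have h8 : (n : ℝ) ^ 2 ≤ Real.log (x n) ^ V := by
      calc (n : ℝ) ^ 2 = (n : ℝ) ^ (2 : ℝ) := by norm_num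
        _ ≤ (n : ℝ) ^ (δ * V) := by
            refine Real.rpow_le_rpow_of_exponent_le hn1 ?_
            rw [div_le_iff₀ hδ] at hV
            linarith
        _ = ((n : ℝ) ^ δ) ^ V := by rw [Real.rpow_mul (by linarith), Real.rpow_natCast]
        _ ≤ _ := by gcongr
    gcongr
  obtain ⟨N, hN⟩ := eventually_atTop.1 h1
  have h2 : ∀ᵐ ω ∂μ, ∀ᶠ n in atTop,
      ω ∉ {ω | ¬ Around (x (n + N)) A (fun j => (Y (n + N) ω j : ℝ)) (fun k => ¬ Bad (x (n + N)) k)} := by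
    refine ae_eventually_notMem ?_
    refine ne_top_of_le_ne_top ?_ (ENNReal.tsum_le_tsum fun n => hN (n + N) (by omega))
    have h3 : Summable fun n : ℕ => 1 / (((n + N : ℕ) : ℝ)) ^ 2 :=
      (summable_nat_add_iff N).2 (Real.summable_one_div_nat_pow.2 (one_lt_two))
    rw [← ENNReal.ofReal_tsum_of_nonneg (fun n => by positivity) h3]
    exact ENNReal.ofReal_ne_top
  filter_upwards [h2] with ω hω
  obtain ⟨J, hJ⟩ := eventually_atTop.1 hω
  filter_upwards [eventually_ge_atTop (J + N)] with n hn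
  have h3 := hJ (n - N) (by omega)
  rw [Nat.sub_add_cancel (by omega)] at h3
  exact not_not.1 h3

end random

section metric

variable {d : Fin s → ℕ} {Bad : ℕ → (Fin s → ℤ) → Prop}

/-- **Metric sequences of exponential growth**, if the saving is large enough. -/
theorem metric_eventuallyW (hd : ∀ j, 1 ≤ d j) (x : ℕ → ℕ) (δ : ℝ) (hδ : 0 < δ)
    (hx : ∀ᶠ n : ℕ in atTop, Real.exp ((n : ℝ) ^ δ) ≤ x n) (A V : ℕ) (hV : 2 / δ ≤ V)
    (hS : SparseW d (V + ((A + 1) * s + s + 1)) Bad) :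
    ∀ᵐ β : Fin s → ℝ, ∀ᶠ n in atTop, Around (x n) A (fun j => β j * (x n : ℝ) ^ d j) (fun k => ¬ Bad (x n) k) := by
  refine ae_of_cubes fun m => ?_
  obtain ⟨x', hx'⟩ : ∃ x' : ℕ → ℕ, x' = fun n => max (x n) 1 := ⟨_, rfl⟩
  have hx1 : ∀ n, 1 ≤ x' n := fun n => by rw [hx']; exact le_max_right _ _
  have hx2 : ∀ᶠ n : ℕ in atTop, Real.exp ((n : ℝ) ^ δ) ≤ x' n := by
    filter_upwards [hx] with n hn
    rw [hx']
    push_cast
    exact hn.trans (le_max_left _ _)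
  have h := random_eventuallyW hd (Fin s → ℝ) ((volume : Measure (Fin s → ℝ)).restrict (cube s m)) x'
    (fun n β j => ⌊β j * (x' n : ℝ) ^ d j⌋) (m + 1) 1 δ hδ
    (fun n k => (Measure.restrict_apply_le _ _).trans (floor_density d (hx1 n) k))
    (fun n => by
      filter_upwards [ae_restrict_mem (measurableSet_Icc : MeasurableSet (cube s m))] with β hβ j
      exact floor_bound d (hx1 n) hβ j) hx2 (A + 1) V hV hS
  filter_upwards [h] with β hβ
  filter_upwards [hβ, (exp_to hδ hx).eventually_ge_atTop 8] with n hn h8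
  have h9 : x' n = x n := by rw [hx']; exact max_eq_left (by omega)
  rw [h9] at hn
  exact around_real h8 hn

end metric

end Pool.Agent.L7h16.SV
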