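import Mathlib

/-!
# Sparse families of sets of integral vectors and random vectors (helper16)

`Bad X ⊆ ℤ^s` are sets with at most `X ^ (∑ d_j) / (log X) ^ U` members in the boxes `|k_j| ≤ B X ^ (d_j)`, for all `B`, `U`
and all large `X`. We study random vectors `Y_n` in such boxes with a bounded density.
-/

set_option autoImplicit false

namespace Pool.Agent.L7h16.SV

open Finset MeasureTheory Filter
open scoped ENNReal Topology

variable {s : ℕ}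

/-- the sets `Bad X` are sparse in the boxes `|k_j| ≤ B X ^ (d_j)` -/
def Sparse (d : Fin s → ℕ) (Bad : ℕ → (Fin s → ℤ) → Prop) : Prop :=
  ∀ B U : ℕ, ∃ X₀ : ℕ, ∀ X : ℕ, X₀ ≤ X →
    ({k : Fin s → ℤ | (∀ j, |k j| ≤ ((B * X ^ d j : ℕ) : ℤ)) ∧ Bad X k}.ncard : ℝ) ≤
      (X : ℝ) ^ (∑ j, d j) / Real.log X ^ U

lemma box_finite (d : Fin s → ℕ) (B X : ℕ) (P : (Fin s → ℤ) → Prop) :
    {k : Fin s → ℤ | (∀ j, |k j| ≤ ((B * X ^ d j : ℕ) : ℤ)) ∧ P k}.Finite := by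
  refine (Finset.finite_toSet (Fintype.piFinset fun j => Icc (-((B * X ^ d j : ℕ) : ℤ)) ((B * X ^ d j : ℕ) : ℤ))).subset ?_
  rintro k ⟨hk, -⟩
  rw [Finset.mem_coe, Fintype.mem_piFinset]
  exact fun j => mem_Icc.2 (abs_le.1 (hk j))

/-- a random vector of bounded density is rarely near a finite set -/
lemma near_measure {Ω : Type*} [MeasurableSpace Ω] (μ : Measure Ω) (Y : Ω → Fin s → ℤ) (C : ℝ≥0∞)
    (hY : ∀ k, μ {ω | Y ω = k} ≤ C) (F : Finset (Fin s → ℤ)) (L : ℕ) :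
    μ {ω | ∃ k ∈ F, ∀ j, |k j - Y ω j| ≤ (L : ℤ)} ≤ (#F : ℝ≥0∞) * ((2 * (L : ℝ≥0∞) + 1) ^ s * C) := by
  classical
  have hsub : {ω | ∃ k ∈ F, ∀ j, |k j - Y ω j| ≤ (L : ℤ)} ⊆
      ⋃ k ∈ F, ⋃ v ∈ (Fintype.piFinset fun _ : Fin s => Icc (-(L : ℤ)) (L : ℤ)), {ω | Y ω = k - v} := by
    rintro ω ⟨k, hk, h⟩
    refine Set.mem_iUnion₂.2 ⟨k, hk, Set.mem_iUnion₂.2 ⟨k - Y ω, ?_, ?_⟩⟩
    · rw [Fintype.mem_piFinset]
      exact fun j => mem_Icc.2 (abs_le.1 (h j))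
    · simp
  refine (measure_mono hsub).trans ?_
  refine (measure_biUnion_finset_le _ _).trans ?_
  refine (Finset.sum_le_card_nsmul F _ ((2 * (L : ℝ≥0∞) + 1) ^ s * C) fun k _ => ?_).trans ?_
  · refine (measure_biUnion_finset_le _ _).trans ?_
    refine (Finset.sum_le_card_nsmul _ _ C fun v _ => hY _).trans ?_
    rw [nsmul_eq_mul, Fintype.card_piFinset]
    have h1 : ((L : ℤ) + 1 - -(L : ℤ)).toNat = 2 * L + 1 := by omega
    simp only [Int.card_Icc, h1, prod_const, card_univ, Fintype.card_fin]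
    push_cast
    exact le_rfl
  · rw [nsmul_eq_mul]

/-- **The basic estimate.** -/
theorem core {d : Fin s → ℕ} {Bad : ℕ → (Fin s → ℤ) → Prop} (hS : Sparse d Bad) (hd : ∀ j, 1 ≤ d j) (B A V : ℕ)
    {C : ℝ} (hC : 0 ≤ C) :
    ∃ X₀ : ℕ, 3 ≤ X₀ ∧ ∀ X : ℕ, X₀ ≤ X → ∀ {Ω : Type} [MeasurableSpace Ω] (μ : Measure Ω) (Y : Ω → Fin s → ℤ),
      (∀ k, μ {ω | Y ω = k} ≤ ENNReal.ofReal (C / (X : ℝ) ^ (∑ j, d j))) →
      (∀ᵐ ω ∂μ, ∀ j, |Y ω j| ≤ ((B * X ^ d j : ℕ) : ℤ)) →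
      μ {ω | ∃ k, (∀ j, |(k j : ℝ) - (Y ω j : ℝ)| ≤ Real.log X ^ A) ∧ Bad X k} ≤ ENNReal.ofReal (1 / Real.log X ^ V) := by
  obtain ⟨W, hW⟩ : ∃ W : ℕ, W = V + (A * s + s + 1) := ⟨_, rfl⟩
  obtain ⟨X₁, hX₁⟩ := hS (B + 1) W
  -- `log X ^ A ≤ X`
  have hlog : ∀ᶠ X : ℕ in atTop, Real.log X ^ A ≤ X := by
    have h1 := (isLittleO_log_rpow_rpow_atTop (A : ℝ) (s := 1) one_pos).bound (c := 1) one_pos
    have h2 := tendsto_natCast_atTop_atTop (R := ℝ) |>.eventually h1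
    filter_upwards [h2, eventually_ge_atTop 3] with X hX hX3
    have h3 : (0 : ℝ) ≤ Real.log X := Real.log_natCast_nonneg _
    rw [Real.rpow_natCast, Real.rpow_one, one_mul, Real.norm_of_nonneg (by positivity), Real.norm_of_nonneg (by positivity)] at hX
    exact hX
  have hlog2 : ∀ᶠ X : ℕ in atTop, max 3 (3 ^ s * C) ≤ Real.log X :=
    (Real.tendsto_log_atTop.comp (tendsto_natCast_atTop_atTop (R := ℝ))).eventually_ge_atTop _
  obtain ⟨X₂, hX₂⟩ := eventually_atTop.1 (hlog.and hlog2)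
  refine ⟨max (max X₁ X₂) 3, le_max_right _ _, fun X hX Ω _ μ Y hY hB => ?_⟩
  obtain ⟨hXA, hX3⟩ := hX₂ X (((le_max_right _ _).trans (le_max_left _ _)).trans hX)
  have hXb := hX₁ X (((le_max_left _ _).trans (le_max_left _ _)).trans hX)
  have hX3' : 3 ≤ X := (le_max_right _ _).trans hX
  have hXr : (3 : ℝ) ≤ X := by exact_mod_cast hX3'
  have hL3 : (3 : ℝ) ≤ Real.log X := (le_max_left _ _).trans hX3
  have hLC : 3 ^ s * C ≤ Real.log X := (le_max_right _ _).trans hX3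
  have hfin := box_finite d (B + 1) X (Bad X)
  obtain ⟨L, hL⟩ : ∃ L, L = ⌊Real.log X ^ A⌋₊ := ⟨_, rfl⟩
  have hLX : L ≤ X := by
    rw [hL]
    exact Nat.floor_le_of_le hXA
  have hsub : {ω | ∃ k, (∀ j, |(k j : ℝ) - (Y ω j : ℝ)| ≤ Real.log X ^ A) ∧ Bad X k} ≤ᵐ[μ]
      {ω | ∃ k ∈ hfin.toFinset, ∀ j, |k j - Y ω j| ≤ (L : ℤ)} := by
    filter_upwards [hB] with ω hBω
    rintro ⟨k, hk, hbad⟩
    have h1 : ∀ j, |k j - Y ω j| ≤ (L : ℤ) := by
      intro j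
      have h2 : ((|k j - Y ω j| : ℤ) : ℝ) ≤ Real.log X ^ A := by push_cast; exact hk j
      have h3 : (((k j - Y ω j).natAbs : ℕ) : ℝ) ≤ Real.log X ^ A := by
        rw [Nat.cast_natAbs]; exact h2
      have h4 : (k j - Y ω j).natAbs ≤ L := by rw [hL]; exact Nat.le_floor h3
      rw [Int.abs_eq_natAbs]; exact_mod_cast h4
    refine ⟨k, ?_, h1⟩
    rw [Set.Finite.mem_toFinset]
    refine ⟨fun j => ?_, hbad⟩
    have h2 := hBω j
    have h3 := h1 j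
    have h4 : X ≤ X ^ d j := Nat.le_self_pow (by have := hd j; omega) X
    have h5 : |k j| ≤ |Y ω j| + |k j - Y ω j| := by
      have := abs_add_le (Y ω j) (k j - Y ω j)
      rwa [add_sub_cancel] at this
    have h6 : ((L : ℕ) : ℤ) ≤ ((X ^ d j : ℕ) : ℤ) := by exact_mod_cast hLX.trans h4
    have h7 : (((B + 1) * X ^ d j : ℕ) : ℤ) = ((B * X ^ d j : ℕ) : ℤ) + ((X ^ d j : ℕ) : ℤ) := by push_cast; ring
    rw [h7]
    linarith
  refine (measure_mono_ae hsub).trans ((near_measure μ Y _ hY _ L).trans ?_)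
  have hcard : ((hfin.toFinset).card : ℝ) ≤ (X : ℝ) ^ (∑ j, d j) / Real.log X ^ W := by
    rw [← Set.ncard_eq_toFinset_card _ hfin]
    exact hXb
  have e1 : (((hfin.toFinset).card : ℕ) : ℝ≥0∞) * ((2 * (L : ℝ≥0∞) + 1) ^ s * ENNReal.ofReal (C / (X : ℝ) ^ (∑ j, d j))) =
      ENNReal.ofReal (((hfin.toFinset).card : ℝ) * ((2 * (L : ℝ) + 1) ^ s * (C / (X : ℝ) ^ (∑ j, d j)))) := by
    rw [ENNReal.ofReal_mul (by positivity), ENNReal.ofReal_mul (by positivity), ENNReal.ofReal_natCast,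
      ENNReal.ofReal_pow (by positivity), ENNReal.ofReal_add (by positivity) (by positivity), ENNReal.ofReal_mul (by positivity),
      ENNReal.ofReal_natCast, ENNReal.ofReal_one, ENNReal.ofReal_ofNat]
  rw [e1]
  refine ENNReal.ofReal_le_ofReal ?_
  have hlp : 0 < Real.log X := by linarith
  have hXD : (0 : ℝ) < (X : ℝ) ^ (∑ j, d j) := by positivity
  have h2L : 2 * (L : ℝ) + 1 ≤ 3 * Real.log X ^ A := by
    have h1 : (L : ℝ) ≤ Real.log X ^ A := by rw [hL]; exact Nat.floor_le (by positivity)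
    have h2 : 1 ≤ Real.log X ^ A := one_le_pow₀ (by linarith)
    linarith
  calc ((hfin.toFinset).card : ℝ) * ((2 * (L : ℝ) + 1) ^ s * (C / (X : ℝ) ^ (∑ j, d j)))
      ≤ ((X : ℝ) ^ (∑ j, d j) / Real.log X ^ W) * ((3 * Real.log X ^ A) ^ s * (C / (X : ℝ) ^ (∑ j, d j))) := by
        gcongr
    _ = (3 ^ s * C) * (Real.log X ^ (A * s)) / Real.log X ^ W := by
        rw [mul_pow, ← pow_mul]
        field_simp
    _ ≤ Real.log X * (Real.log X ^ (A * s)) / Real.log X ^ W := by gcongr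
    _ ≤ 1 / Real.log X ^ V := by
        rw [div_le_div_iff₀ (by positivity) (by positivity), one_mul]
        have e2 : Real.log X * Real.log X ^ (A * s) * Real.log X ^ V = Real.log X ^ (V + (A * s + 1)) := by
          rw [pow_add, pow_add, pow_one]; ring
        rw [e2, hW]
        exact pow_le_pow_right₀ (by linarith) (by omega)

end Pool.Agent.L7h16.SV
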